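import Pool.Agent.Q174.VK.Main

/-!
# Unknotting number and unknotting sequence number of virtual knots

For every virtual knot the unknotting number equals the unknotting sequence number (both may
be infinite).  Virtual knots are Gauss diagrams up to the three Reidemeister moves.

The idea of the proof: follow an unknotting sequence by a sequence of Reidemeister moves
without any crossing change, keeping the invariant that, after changing the crossings in a
certain set at once, the current diagram can be turned into the current diagram of the
unknotting sequence by decreasing first and second Reidemeister moves only.  First and second
moves are easily lifted.  To lift a third move one first creates two pairs of crossings near
the three strands of the triangle, so that the third move can be performed with new crossings,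
and then the old crossings of the top strand cancel with new ones.
-/

namespace Pool.Agent.Results.MP_69d501_gt.UnknottingSequence

open Q174.VK

/-- For every virtual knot `K`, the unknotting number and the unknotting sequence number
agree. -/
theorem result (K : Diagram) : unknottingNumber K = unknottingSequenceNumber K :=
  unknottingNumber_eq K

end Pool.Agent.Results.MP_69d501_gt.UnknottingSequence
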